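import Mathlib

/-! A bipartite graph without 4-cycles: points `(x, y)` and lines `(a, b)` over `ℤ/P`, with
`0 ≤ x, a < t` and `t * t ≤ P`. -/

set_option autoImplicit false

namespace H721R3.OT

/-- the point with number `i` lies on the line with number `j` -/
def On (P : ℕ) (i j : ℕ) : Prop := i % P = ((j / P) * (i / P) + j % P) % P

/-- incidence graph: points are the numbers below `t * P`, lines the numbers `t * P + j` -/
def inc (t P : ℕ) (u v : ℕ) : Prop :=
  (u < t * P ∧ t * P ≤ v ∧ v < 2 * (t * P) ∧ On P u (v - t * P)) ∨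
  (v < t * P ∧ t * P ≤ u ∧ u < 2 * (t * P) ∧ On P v (u - t * P))

theorem inc_symm {t P u v : ℕ} (h : inc t P u v) : inc t P v u := by
  rcases h with h | h
  · exact Or.inr h
  · exact Or.inl h

theorem key {t P a b c d : ℕ} (hP : 0 < P) (ht : t * t ≤ P) (ha : a < t * P) (hb : b < t * P)
    (hc : c < t * P) (hd : d < t * P) (h1 : On P a c) (h2 : On P a d) (h3 : On P b c)
    (h4 : On P b d) : a = b ∨ c = d := by
  have hx1 : a / P < t := Nat.div_lt_of_lt_mul (by rwa [mul_comm])
  have hx2 : b / P < t := Nat.div_lt_of_lt_mul (by rwa [mul_comm])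
  have hm1 : c / P < t := Nat.div_lt_of_lt_mul (by rwa [mul_comm])
  have hm2 : d / P < t := Nat.div_lt_of_lt_mul (by rwa [mul_comm])
  have ea := Nat.div_add_mod a P
  have eb := Nat.div_add_mod b P
  have ec := Nat.div_add_mod c P
  have ed := Nat.div_add_mod d P
  have la := Nat.mod_lt a hP
  have lb := Nat.mod_lt b hP
  have lc := Nat.mod_lt c hP
  have ld := Nat.mod_lt d hP
  unfold On at h1 h2 h3 h4
  set x1 := a / P
  set x2 := b / P
  set m1 := c / P
  set m2 := d / P
  set y1 := a % P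
  set y2 := b % P
  set b1 := c % P
  set b2 := d % P
  have k1 : ((m1 * x1 + b1 : ℕ) : ℤ) ≡ (y1 : ℤ) [ZMOD P] := by
    rw [h1]
    push_cast
    exact (Int.mod_modEq _ _).symm
  have k2 : ((m2 * x1 + b2 : ℕ) : ℤ) ≡ (y1 : ℤ) [ZMOD P] := by
    rw [h2]
    push_cast
    exact (Int.mod_modEq _ _).symm
  have k3 : ((m1 * x2 + b1 : ℕ) : ℤ) ≡ (y2 : ℤ) [ZMOD P] := by
    rw [h3]
    push_cast
    exact (Int.mod_modEq _ _).symm
  have k4 : ((m2 * x2 + b2 : ℕ) : ℤ) ≡ (y2 : ℤ) [ZMOD P] := by
    rw [h4]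
    push_cast
    exact (Int.mod_modEq _ _).symm
  have e1 := (k1.trans k2.symm).sub (k3.trans k4.symm)
  have e2 : (P : ℤ) ∣ ((m1 : ℤ) - m2) * ((x1 : ℤ) - x2) := by
    have := e1.symm.dvd
    push_cast at this
    convert this using 1
    ring
  have hlt : |((m1 : ℤ) - m2) * ((x1 : ℤ) - x2)| < P := by
    rw [abs_mul]
    have a1 : |(m1 : ℤ) - m2| < t := abs_sub_lt_of_nonneg_of_lt (Int.natCast_nonneg _)
      (by exact_mod_cast hm1) (Int.natCast_nonneg _) (by exact_mod_cast hm2)
    have a2 : |(x1 : ℤ) - x2| < t := abs_sub_lt_of_nonneg_of_lt (Int.natCast_nonneg _)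
      (by exact_mod_cast hx1) (Int.natCast_nonneg _) (by exact_mod_cast hx2)
    calc |(m1 : ℤ) - m2| * |(x1 : ℤ) - x2| < t * t := by
          apply mul_lt_mul'' a1 a2 (abs_nonneg _) (abs_nonneg _)
      _ ≤ P := by exact_mod_cast ht
  have e3 : ((m1 : ℤ) - m2) * ((x1 : ℤ) - x2) = 0 := Int.eq_zero_of_abs_lt_dvd e2 hlt
  rcases mul_eq_zero.1 e3 with h | h
  · right
    have hm : m1 = m2 := by omega
    have hb' : (b1 : ℤ) ≡ b2 [ZMOD P] := by
      have := k1.trans k2.symm
      rw [hm] at this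
      push_cast at this
      exact Int.ModEq.add_left_cancel' _ this
    have : b1 = b2 := by
      have h5 := (Int.natCast_modEq_iff.1 hb')
      unfold Nat.ModEq at h5
      rwa [Nat.mod_eq_of_lt lc, Nat.mod_eq_of_lt ld] at h5
    rw [← ec, ← ed, hm, this]
  · left
    have hx : x1 = x2 := by omega
    have hy : (y1 : ℤ) ≡ y2 [ZMOD P] := by
      have := k1.symm.trans ((show ((m1 * x1 + b1 : ℕ) : ℤ) = ((m1 * x2 + b1 : ℕ) : ℤ) by
        rw [hx]) ▸ k3)
      exact this
    have : y1 = y2 := by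
      have h5 := (Int.natCast_modEq_iff.1 hy)
      unfold Nat.ModEq at h5
      rwa [Nat.mod_eq_of_lt la, Nat.mod_eq_of_lt lb] at h5
    rw [← ea, ← eb, hx, this]

/-- there is no ordered 4-cycle `a, b < c, d` -/
theorem no_cycle {t P a b c d : ℕ} (hP : 0 < P) (ht : t * t ≤ P) (hab : a < b) (hbc : b < c)
    (hcd : c < d) (h1 : inc t P a c) (h2 : inc t P a d) (h3 : inc t P b c) (h4 : inc t P b d) :
    False := by
  have ha : a < t * P ∧ t * P ≤ c ∧ c < 2 * (t * P) ∧ On P a (c - t * P) := by
    rcases h1 with h | h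
    · exact h
    · omega
  have hb : b < t * P ∧ t * P ≤ d ∧ d < 2 * (t * P) ∧ On P b (d - t * P) := by
    rcases h4 with h | h
    · exact h
    · omega
  have hc : On P a (d - t * P) := by
    rcases h2 with h | h
    · exact h.2.2.2
    · omega
  have hd : On P b (c - t * P) := by
    rcases h3 with h | h
    · exact h.2.2.2
    · omega
  rcases key hP ht ha.1 hb.1 (by omega) (by omega) ha.2.2.2 hc hd hb.2.2.2 with h | h
  · omega
  · omega

/-- every vertex has at least `t` neighbours -/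
theorem degree {t P u : ℕ} (hP : 0 < P) (hu : u < 2 * (t * P)) :
    ∃ g : Fin t → ℕ, Function.Injective g ∧ ∀ i, g i < 2 * (t * P) ∧ inc t P u (g i) := by
  by_cases h : u < t * P
  · -- a point `(x, y)`: lines with slope `i` and intercept `y - i x`
    have hy : ∀ i : Fin t, ∃ b < P, u % P = (i.1 * (u / P) + b) % P := by
      intro i
      refine ⟨((u % P : ℕ) + P * (i.1 * (u / P)) - i.1 * (u / P)) % P, Nat.mod_lt _ hP, ?_⟩
      rw [Nat.add_mod_mod]
      have : i.1 * (u / P) ≤ P * (i.1 * (u / P)) := Nat.le_mul_of_pos_left _ hP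
      have e : i.1 * (u / P) + (u % P + P * (i.1 * (u / P)) - i.1 * (u / P)) =
          u % P + P * (i.1 * (u / P)) := by omega
      rw [e, Nat.add_mul_mod_self_left, Nat.mod_mod]
    choose b hb hb2 using hy
    have hlt : ∀ i : Fin t, P * i.1 + b i < t * P := by
      intro i
      have : i.1 + 1 ≤ t := i.2
      calc P * i.1 + b i < P * i.1 + P := by have := hb i; omega
        _ = P * (i.1 + 1) := by ring
        _ ≤ P * t := Nat.mul_le_mul_left _ this
        _ = t * P := mul_comm _ _
    refine ⟨fun i => t * P + (P * i.1 + b i), ?_, ?_⟩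
    · intro i j hij
      have h1 : P * i.1 + b i = P * j.1 + b j := by
        simp only at hij
        omega
      have h2 : (P * i.1 + b i) / P = (P * j.1 + b j) / P := by rw [h1]
      rw [Nat.mul_add_div hP, Nat.mul_add_div hP, Nat.div_eq_of_lt (hb i),
        Nat.div_eq_of_lt (hb j)] at h2
      exact Fin.ext (by omega)
    · intro i
      have := hlt i
      dsimp only
      refine ⟨by omega, Or.inl ⟨h, by omega, by omega, ?_⟩⟩
      have e : t * P + (P * i.1 + b i) - t * P = P * i.1 + b i := by omega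
      rw [e]
      unfold On
      rw [Nat.mul_add_div hP, Nat.div_eq_of_lt (hb i), Nat.mul_add_mod, Nat.mod_eq_of_lt (hb i),
        add_zero]
      exact hb2 i
  · -- a line
    have hlt0 : ∀ i : Fin t, P * i.1 + (((u - t * P) / P) * i.1 + (u - t * P) % P) % P < t * P := by
      intro i
      have : i.1 + 1 ≤ t := i.2
      have hm := Nat.mod_lt (((u - t * P) / P) * i.1 + (u - t * P) % P) hP
      calc P * i.1 + (((u - t * P) / P) * i.1 + (u - t * P) % P) % P < P * i.1 + P := by omega
        _ = P * (i.1 + 1) := by ring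
        _ ≤ P * t := Nat.mul_le_mul_left _ this
        _ = t * P := mul_comm _ _
    refine ⟨fun i => P * i.1 + (((u - t * P) / P) * i.1 + (u - t * P) % P) % P, ?_, ?_⟩
    · intro i j hij
      have h2 : (P * i.1 + (((u - t * P) / P) * i.1 + (u - t * P) % P) % P) / P =
          (P * j.1 + (((u - t * P) / P) * j.1 + (u - t * P) % P) % P) / P := by
        simp only at hij
        rw [hij]
      rw [Nat.mul_add_div hP, Nat.mul_add_div hP, Nat.div_eq_of_lt (Nat.mod_lt _ hP),
        Nat.div_eq_of_lt (Nat.mod_lt _ hP)] at h2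
      exact Fin.ext (by omega)
    · intro i
      have := hlt0 i
      dsimp only
      refine ⟨by omega, Or.inr ⟨this, by omega, hu, ?_⟩⟩
      unfold On
      rw [Nat.mul_add_div hP, Nat.div_eq_of_lt (Nat.mod_lt _ hP), Nat.mul_add_mod, Nat.mod_mod,
        add_zero]

end H721R3.OT
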