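import Pool.Agent.H721R3.OT.Chi
import Pool.Agent.H721R3.OT.Inc

set_option autoImplicit false

namespace H721R3.OT

/-- first cut: the number of vertices of the first part -/
def c1 (t : ℕ) : ℕ := t * (4 * t ^ 2 + 1)
/-- second cut -/
def c2 (t : ℕ) : ℕ := t * (10 * t ^ 2 + 4)
/-- modulus -/
def md (t : ℕ) : ℕ := 3 * t ^ 2 + 2
/-- number of vertices -/
def nn (t : ℕ) : ℕ := t * (16 * t ^ 2 + 8)

theorem c12 (t : ℕ) : c1 t ≤ c2 t := Nat.mul_le_mul_left _ (by omega)

theorem c2n (t : ℕ) : c2 t + 2 * (t * md t) = nn t := by
  unfold c2 md nn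
  ring

/-- the part of a vertex -/
def cls (t u : ℕ) : ℕ := if u < c1 t then 0 else if u < c2 t then 1 else 2

/-- the ordered graph `G`: complete between three intervals, the first two are independent, the
last one carries the incidence graph -/
def GG (t : ℕ) : SimpleGraph (Fin (nn t)) where
  Adj u v := cls t u.1 ≠ cls t v.1 ∨
    (c2 t ≤ u.1 ∧ c2 t ≤ v.1 ∧ inc t (md t) (u.1 - c2 t) (v.1 - c2 t))
  symm := ⟨fun _ _ h => by
    rcases h with h | h
    · exact Or.inl h.symm
    · exact Or.inr ⟨h.2.1, h.1, inc_symm h.2.2⟩⟩
  loopless := ⟨fun u h => by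
    rcases h with h | ⟨_, _, h⟩
    · exact h rfl
    · rcases h with h | h <;> omega⟩

theorem md_pos (t : ℕ) : 0 < md t := by
  unfold md
  omega

theorem md_ge (t : ℕ) : t * t ≤ md t := by
  unfold md
  nlinarith

/-- lower bound for the degree -/
theorem deg (t : ℕ) (v : Fin (nn t)) :
    t * (10 * t ^ 2 + 5) ≤ Nat.card {w // (GG t).Adj v w} := by
  have hc12 := c12 t
  have hc2n := c2n t
  by_cases h1 : v.1 < c1 t
  · -- first part: adjacent to everything from `c1` on
    have hinj : Nat.card (Fin (nn t - c1 t)) ≤ Nat.card {w // (GG t).Adj v w} := by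
      apply Nat.card_le_card_of_injective (fun i : Fin (nn t - c1 t) =>
        (⟨⟨c1 t + i.1, by have := i.2; omega⟩, by
          left
          have e1 : cls t v.1 = 0 := by simp [cls, h1]
          have e2 : cls t (c1 t + i.1) ≠ 0 := by
            unfold cls
            rw [if_neg (by omega)]
            split_ifs <;> omega
          rw [e1]
          exact Ne.symm e2⟩ : {w // (GG t).Adj v w}))
      intro i j hij
      have := congrArg (fun z => (z.1 : Fin (nn t)).1) hij
      simp only at this
      exact Fin.ext (by omega)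
    rw [Nat.card_fin] at hinj
    refine le_trans ?_ hinj
    have : t * (10 * t ^ 2 + 5) + c1 t ≤ nn t := by
      unfold c1 nn
      nlinarith [Nat.zero_le t, Nat.zero_le (t ^ 3)]
    omega
  · by_cases h2 : v.1 < c2 t
    · have hinj : Nat.card (Fin (c1 t) ⊕ Fin (nn t - c2 t)) ≤ Nat.card {w // (GG t).Adj v w} := by
        have ev : cls t v.1 = 1 := by
          unfold cls
          rw [if_neg h1, if_pos h2]
        let F : Fin (c1 t) ⊕ Fin (nn t - c2 t) → {w // (GG t).Adj v w} := Sum.elim
          (fun i => ⟨⟨i.1, by have := i.2; omega⟩, by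
            left
            have e2 : cls t i.1 = 0 := by simp [cls, i.2]
            show cls t v.1 ≠ cls t i.1
            rw [ev, e2]
            norm_num⟩)
          (fun i => ⟨⟨c2 t + i.1, by have := i.2; omega⟩, by
            left
            have e2 : cls t (c2 t + i.1) = 2 := by
              unfold cls
              rw [if_neg (by omega), if_neg (by omega)]
            show cls t v.1 ≠ cls t (c2 t + i.1)
            rw [ev, e2]
            norm_num⟩)
        apply Nat.card_le_card_of_injective F
        rintro (i | i) (j | j) hij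
        · have := congrArg (fun z => (z.1 : Fin (nn t)).1) hij
          exact congrArg Sum.inl (Fin.ext this)
        · have : i.1 = c2 t + j.1 := congrArg (fun z => (z.1 : Fin (nn t)).1) hij
          have := i.2
          omega
        · have : c2 t + i.1 = j.1 := congrArg (fun z => (z.1 : Fin (nn t)).1) hij
          have := j.2
          omega
        · have : c2 t + i.1 = c2 t + j.1 := congrArg (fun z => (z.1 : Fin (nn t)).1) hij
          exact congrArg Sum.inr (Fin.ext (by omega))
      rw [Nat.card_sum, Nat.card_fin, Nat.card_fin] at hinj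
      refine le_trans ?_ hinj
      have : t * (10 * t ^ 2 + 5) + c2 t = nn t + c1 t := by
        unfold c1 c2 nn
        ring
      omega
    · -- last part
      have hv : v.1 - c2 t < 2 * (t * md t) := by
        have := v.2
        omega
      obtain ⟨g, hg, hg2⟩ := degree (t := t) (P := md t) (md_pos t) hv
      have ev : cls t v.1 = 2 := by
        unfold cls
        rw [if_neg h1, if_neg h2]
      have hinj : Nat.card (Fin (c2 t) ⊕ Fin t) ≤ Nat.card {w // (GG t).Adj v w} := by
        let F : Fin (c2 t) ⊕ Fin t → {w // (GG t).Adj v w} := Sum.elim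
          (fun i => ⟨⟨i.1, by have := i.2; omega⟩, by
            left
            have e2 : cls t i.1 ≠ 2 := by
              unfold cls
              have := i.2
              split_ifs <;> omega
            show cls t v.1 ≠ cls t i.1
            rw [ev]
            exact Ne.symm e2⟩)
          (fun i => ⟨⟨c2 t + g i, by have := (hg2 i).1; omega⟩, by
            right
            refine ⟨by omega, Nat.le_add_right _ _, ?_⟩
            show inc t (md t) (v.1 - c2 t) (c2 t + g i - c2 t)
            rw [Nat.add_sub_cancel_left]
            exact (hg2 i).2⟩)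
        apply Nat.card_le_card_of_injective F
        rintro (i | i) (j | j) hij
        · have := congrArg (fun z => (z.1 : Fin (nn t)).1) hij
          exact congrArg Sum.inl (Fin.ext this)
        · have : i.1 = c2 t + g j := congrArg (fun z => (z.1 : Fin (nn t)).1) hij
          have := i.2
          omega
        · have : c2 t + g i = j.1 := congrArg (fun z => (z.1 : Fin (nn t)).1) hij
          have := j.2
          omega
        · have : c2 t + g i = c2 t + g j := congrArg (fun z => (z.1 : Fin (nn t)).1) hij
          exact congrArg Sum.inr (hg (by omega))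
      rw [Nat.card_sum, Nat.card_fin, Nat.card_fin] at hinj
      refine le_trans ?_ hinj
      unfold c2
      nlinarith

/-- every copy of `H` uses two vertices of the first part -/
theorem two_in_first (t : ℕ) (f : Fin 8 → Fin (nn t)) (hf : IsCopy H8 (GG t) f) :
    (f 1).1 < c1 t := by
  obtain ⟨hmono, hadj⟩ := hf
  by_contra h
  rw [not_lt] at h
  have h13 : (f 1).1 < (f 3).1 := hmono (by decide)
  have h34 : (f 3).1 < (f 4).1 := hmono (by decide)
  have h46 : (f 4).1 < (f 6).1 := hmono (by decide)
  have h67 : (f 6).1 < (f 7).1 := hmono (by decide)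
  have h3 : c2 t ≤ (f 3).1 := by
    by_contra h3
    rw [not_le] at h3
    rcases hadj 1 3 (by left; decide) with h' | h'
    · apply h'
      unfold cls
      rw [if_neg (by omega), if_pos (by omega), if_neg (by omega), if_pos h3]
    · omega
  have hc : ∀ i j : Fin 8, H8.Adj i j → c2 t ≤ (f i).1 → c2 t ≤ (f j).1 →
      inc t (md t) ((f i).1 - c2 t) ((f j).1 - c2 t) := by
    intro i j hij hi hj
    rcases hadj i j hij with h' | h'
    · exfalso
      apply h'
      have := c12 t
      unfold cls
      rw [if_neg (by omega), if_neg (by omega), if_neg (by omega), if_neg (by omega)]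
    · exact h'.2.2
  exact no_cycle (md_pos t) (md_ge t) (a := (f 3).1 - c2 t) (b := (f 4).1 - c2 t)
    (c := (f 6).1 - c2 t) (d := (f 7).1 - c2 t) (by omega) (by omega) (by omega)
    (hc 3 6 (by left; decide) (by omega) (by omega))
    (hc 3 7 (by left; decide) (by omega) (by omega))
    (hc 4 6 (by left; decide) (by omega) (by omega))
    (hc 4 7 (by left; decide) (by omega) (by omega))

theorem uncovered (t : ℕ) (T : Set (Fin 8 → Fin (nn t))) (hT : IsTiling H8 (GG t) T) :
    4 * t ≤ Nat.card {v : Fin (nn t) // ¬ Covered T v} := by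
  classical
  obtain ⟨hcopy, hdisj⟩ := hT
  have hfin : T.Finite := Set.toFinite T
  set T' : Finset (Fin 8 → Fin (nn t)) := hfin.toFinset with hT'
  have hmem : ∀ f, f ∈ T' ↔ f ∈ T := fun f => by rw [hT', Set.Finite.mem_toFinset]
  -- two vertices in the first part
  have h2 : 2 * T'.card ≤ c1 t := by
    have hinj : Nat.card (↥T' × Fin 2) ≤ Nat.card (Fin (c1 t)) := by
      have hlt : ∀ (f : ↥T') (i : Fin 2), (f.1 (Fin.castLE (by norm_num) i)).1 < c1 t := by
        intro f i
        have h1 := two_in_first t f.1 (hcopy _ ((hmem _).1 f.2))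
        have hle : (Fin.castLE (by norm_num : 2 ≤ 8) i) ≤ (1 : Fin 8) := by
          fin_cases i <;> decide
        have := (hcopy _ ((hmem _).1 f.2)).1.monotone hle
        exact lt_of_le_of_lt this h1
      apply Nat.card_le_card_of_injective (fun p : ↥T' × Fin 2 =>
        (⟨(p.1.1 (Fin.castLE (by norm_num) p.2)).1, hlt p.1 p.2⟩ : Fin (c1 t)))
      rintro ⟨f, i⟩ ⟨g, j⟩ hfg
      have hval : f.1 (Fin.castLE (by norm_num) i) = g.1 (Fin.castLE (by norm_num) j) :=
        Fin.ext (congrArg (fun z : Fin (c1 t) => z.1) hfg)
      have hfg' : f = g := by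
        by_contra hne
        exact hdisj f.1 ((hmem _).1 f.2) g.1 ((hmem _).1 g.2)
          (fun h => hne (Subtype.ext h)) _ _ hval
      subst hfg'
      have := (hcopy _ ((hmem _).1 f.2)).1.injective hval
      exact Prod.ext rfl (Fin.castLE_injective _ this)
    rw [Nat.card_prod, Nat.card_fin, Nat.card_fin, Nat.card_eq_fintype_card, Fintype.card_coe]
      at hinj
    omega
  -- covered vertices
  set U : Finset (Fin (nn t)) := T'.biUnion (fun f => Finset.univ.image f) with hU
  have hUc : U.card ≤ T'.card * 8 := by
    refine Finset.card_biUnion_le_card_mul _ _ _ ?_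
    intro f _
    exact le_trans Finset.card_image_le (by simp)
  have hcov : ∀ v, v ∈ U ↔ Covered T v := by
    intro v
    rw [hU, Finset.mem_biUnion]
    constructor
    · rintro ⟨f, hf, hv⟩
      obtain ⟨i, _, hi⟩ := Finset.mem_image.1 hv
      exact ⟨f, (hmem f).1 hf, i, hi⟩
    · rintro ⟨f, hf, i, hi⟩
      exact ⟨f, (hmem f).2 hf, Finset.mem_image.2 ⟨i, Finset.mem_univ _, hi⟩⟩
  have hcard : Nat.card {v : Fin (nn t) // ¬ Covered T v} = nn t - U.card := by
    have e : Nat.card {v : Fin (nn t) // ¬ Covered T v} = Nat.card {v : Fin (nn t) // v ∈ Uᶜ} := by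
      apply Nat.card_congr
      refine Equiv.subtypeEquivRight ?_
      intro v
      rw [Finset.mem_compl, hcov]
    rw [e, Nat.card_eq_fintype_card, Fintype.card_coe, Finset.card_compl, Fintype.card_fin]
  rw [hcard]
  have : 4 * t + 4 * c1 t = nn t := by
    unfold c1 nn
    ring
  omega

end H721R3.OT
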