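import Pool.Agent.H721R3.OT.Defs

set_option autoImplicit false

namespace H721R3.OT

/-- the ordered graph `H` on eight vertices (numbered from 0) -/
def H8 : SimpleGraph (Fin 8) where
  Adj i j := (i.1, j.1) ∈ [(1, 3), (3, 6), (3, 7), (4, 6), (4, 7)] ∨
    (j.1, i.1) ∈ [(1, 3), (3, 6), (3, 7), (4, 6), (4, 7)]
  symm := ⟨fun _ _ h => h.symm⟩
  loopless := ⟨by decide⟩

theorem H8_adj {i j : Fin 8} (h : H8.Adj i j) :
    (i = 1 ∧ j = 3 ∨ i = 3 ∧ j = 6 ∨ i = 3 ∧ j = 7 ∨ i = 4 ∧ j = 6 ∨ i = 4 ∧ j = 7) ∨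
    (j = 1 ∧ i = 3 ∨ j = 3 ∧ i = 6 ∨ j = 3 ∧ i = 7 ∨ j = 4 ∧ i = 6 ∨ j = 4 ∧ i = 7) := by
  have h' : (i.1, j.1) ∈ [(1, 3), (3, 6), (3, 7), (4, 6), (4, 7)] ∨
    (j.1, i.1) ∈ [(1, 3), (3, 6), (3, 7), (4, 6), (4, 7)] := h
  revert h'
  clear h
  revert i j
  decide

/-- the complete 3-partite graph with parts of sizes 2, 3, 3 -/
def B0 : Multipartite where
  k := 3
  b := 8
  kpos := by norm_num
  part := ![0, 0, 1, 1, 1, 2, 2, 2]
  surj := by decide

theorem part_card (c : Fin 3) :
    2 ≤ (Finset.univ.filter fun x : Fin 8 => B0.part x = c).card ∧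
    (Finset.univ.filter fun x : Fin 8 => B0.part x = c).card ≤ 3 := by
  revert c
  decide

theorem mono_lemma (q : Fin 8 → Fin 3) (hq : Monotone q)
    (hc : ∀ c, 2 ≤ (Finset.univ.filter fun x : Fin 8 => q x = c).card ∧
      (Finset.univ.filter fun x : Fin 8 => q x = c).card ≤ 3) :
    q 1 = 0 ∧ q 3 = 1 ∧ q 4 = 1 ∧ q 6 = 2 ∧ q 7 = 2 := by
  have h1 : q 1 = 0 := by
    by_contra h
    have : (Finset.univ.filter fun x : Fin 8 => q x = 0) ⊆ {0} := by
      intro x hx
      rw [Finset.mem_filter] at hx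
      rw [Finset.mem_singleton]
      by_contra hx0
      have : (1 : Fin 8) ≤ x := by
        have : x ≠ 0 := hx0
        omega
      have := hq this
      rw [hx.2] at this
      exact h (le_antisymm this (Fin.zero_le _))
    have := Finset.card_le_card this
    have := (hc 0).1
    simp at *
    omega
  have h3 : q 3 ≠ 0 := by
    intro h
    have : ({0, 1, 2, 3} : Finset (Fin 8)) ⊆ (Finset.univ.filter fun x : Fin 8 => q x = 0) := by
      intro x hx
      rw [Finset.mem_filter]
      refine ⟨Finset.mem_univ _, ?_⟩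
      have hx3 : x ≤ 3 := by
        revert hx
        revert x
        decide
      have := hq hx3
      rw [h] at this
      exact le_antisymm this (Fin.zero_le _)
    have := Finset.card_le_card this
    have h2 := (hc 0).2
    have h4 : ({0, 1, 2, 3} : Finset (Fin 8)).card = 4 := by decide
    omega
  have h4 : q 4 ≠ 2 := by
    intro h
    have : ({4, 5, 6, 7} : Finset (Fin 8)) ⊆ (Finset.univ.filter fun x : Fin 8 => q x = 2) := by
      intro x hx
      rw [Finset.mem_filter]
      refine ⟨Finset.mem_univ _, ?_⟩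
      have hx3 : 4 ≤ x := by
        revert hx
        revert x
        decide
      have := hq hx3
      rw [h] at this
      have h5 := Fin.le_last (q x)
      exact le_antisymm h5 this
    have := Finset.card_le_card this
    have h2 := (hc 2).2
    have h4 : ({4, 5, 6, 7} : Finset (Fin 8)).card = 4 := by decide
    omega
  have h6 : q 6 = 2 := by
    by_contra h
    have : (Finset.univ.filter fun x : Fin 8 => q x = 2) ⊆ {7} := by
      intro x hx
      rw [Finset.mem_filter] at hx
      rw [Finset.mem_singleton]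
      by_contra hx0
      have : x ≤ (6 : Fin 8) := by
        have : x ≠ 7 := hx0
        omega
      have := hq this
      rw [hx.2] at this
      exact h (le_antisymm (Fin.le_last _) this)
    have := Finset.card_le_card this
    have := (hc 2).1
    simp at *
    omega
  have h34 : q 3 ≤ q 4 := hq (by decide)
  have h67 : q 6 ≤ q 7 := hq (by decide)
  refine ⟨h1, ?_, ?_, h6, ?_⟩
  · omega
  · omega
  · omega

theorem B0_bottle : IsBottlegraph H8 B0 := by
  intro s φ hφ
  refine ⟨1, le_refl 1, ?_⟩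
  have hmono : Monotone (fun i : Fin 8 => s (B0.part (φ.symm i))) := by
    intro i j hij
    by_contra h
    rw [not_le] at h
    have := hφ _ _ h
    rw [Equiv.apply_symm_apply, Equiv.apply_symm_apply] at this
    exact absurd hij (not_le.2 this)
  have hcard : ∀ c : Fin 3, (Finset.univ.filter fun x : Fin 8 => s (B0.part (φ.symm x)) = c).card =
      (Finset.univ.filter fun x : Fin 8 => B0.part x = s.symm c).card := by
    intro c
    refine Finset.card_bij' (fun x _ => φ.symm x) (fun x _ => φ x) ?_ ?_ ?_ ?_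
    · intro x hx
      rw [Finset.mem_filter] at hx ⊢
      refine ⟨Finset.mem_univ _, ?_⟩
      rw [← hx.2, Equiv.symm_apply_apply]
    · intro x hx
      rw [Finset.mem_filter] at hx ⊢
      refine ⟨Finset.mem_univ _, ?_⟩
      rw [Equiv.symm_apply_apply, hx.2, Equiv.apply_symm_apply]
    · intro x _
      exact Equiv.apply_symm_apply _ _
    · intro x _
      exact Equiv.symm_apply_apply _ _
  have key := mono_lemma (fun i : Fin 8 => s (B0.part (φ.symm i))) hmono (fun c =>
    ⟨(part_card (s.symm c)).1.trans_eq (hcard c).symm,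
      (hcard c).trans_le (part_card (s.symm c)).2⟩)
  have k1 : s (B0.part (φ.symm (1 : Fin 8))) = (0 : Fin 3) := key.1
  have k3 : s (B0.part (φ.symm (3 : Fin 8))) = (1 : Fin 3) := key.2.1
  have k4 : s (B0.part (φ.symm (4 : Fin 8))) = (1 : Fin 3) := key.2.2.1
  have k6 : s (B0.part (φ.symm (6 : Fin 8))) = (2 : Fin 3) := key.2.2.2.1
  have k7 : s (B0.part (φ.symm (7 : Fin 8))) = (2 : Fin 3) := key.2.2.2.2
  -- the single copy
  let f : Fin 8 → Fin (B0.b * 1) := fun i => ⟨i.1, by have := i.2; show i.1 < 8 * 1; omega⟩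
  have hdiv : ∀ i : Fin 8, (f i).divNat = (i : Fin B0.b) := by
    intro i
    apply Fin.ext
    show i.1 / 1 = i.1
    exact Nat.div_one _
  have ne : ∀ {i j : Fin 8}, s (B0.part (φ.symm i)) ≠ s (B0.part (φ.symm j)) →
      (blowup B0 1 φ).Adj (f i) (f j) := by
    intro i j hij
    show B0.part (φ.symm (f i).divNat) ≠ B0.part (φ.symm (f j).divNat)
    rw [hdiv, hdiv]
    intro h
    exact hij (congrArg s h)
  refine ⟨{f}, ⟨?_, ?_⟩, ?_⟩
  · intro g hg
    rw [Set.mem_singleton_iff] at hg
    subst hg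
    refine ⟨fun i j hij => ?_, ?_⟩
    · show i.1 < j.1
      exact hij
    · intro i j hij
      have h01 : (0 : Fin 3) ≠ 1 := by decide
      have h02 : (0 : Fin 3) ≠ 2 := by decide
      have h12 : (1 : Fin 3) ≠ 2 := by decide
      rcases H8_adj hij with h | h
      · rcases h with ⟨rfl, rfl⟩ | ⟨rfl, rfl⟩ | ⟨rfl, rfl⟩ | ⟨rfl, rfl⟩ | ⟨rfl, rfl⟩
        · exact ne (by rw [k1, k3]; exact h01)
        · exact ne (by rw [k3, k6]; exact h12)
        · exact ne (by rw [k3, k7]; exact h12)
        · exact ne (by rw [k4, k6]; exact h12)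
        · exact ne (by rw [k4, k7]; exact h12)
      · rcases h with ⟨rfl, rfl⟩ | ⟨rfl, rfl⟩ | ⟨rfl, rfl⟩ | ⟨rfl, rfl⟩ | ⟨rfl, rfl⟩
        · exact ne (by rw [k1, k3]; exact h01.symm)
        · exact ne (by rw [k3, k6]; exact h12.symm)
        · exact ne (by rw [k3, k7]; exact h12.symm)
        · exact ne (by rw [k4, k6]; exact h12.symm)
        · exact ne (by rw [k4, k7]; exact h12.symm)
  · intro g hg g' hg' hne
    rw [Set.mem_singleton_iff] at hg hg'
    exact absurd (hg.trans hg'.symm) hne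
  · intro v
    refine ⟨f, Set.mem_singleton _, ⟨v.1, by have := v.2; have h8 : B0.b * 1 = 8 := rfl; omega⟩, ?_⟩
    apply Fin.ext
    rfl

end H721R3.OT
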