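import Pool.Agent.H721R3.OT.Bottle

set_option autoImplicit false

namespace H721R3.OT

theorem chi_B0 : chi B0.graph = 3 := by
  have hle : B0.graph.chromaticNumber ≤ 3 := by
    have c : B0.graph.Coloring (Fin 3) := SimpleGraph.Coloring.mk B0.part (fun h => h)
    have := c.colorable.chromaticNumber_le
    simpa using this
  have hge : 3 ≤ B0.graph.chromaticNumber := by
    have hcl : B0.graph.IsClique (({0, 2, 5} : Finset (Fin 8)) : Set (Fin 8)) := by
      intro x hx y hy hxy
      have hx' : x ∈ ({0, 2, 5} : Finset (Fin 8)) := hx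
      have hy' : y ∈ ({0, 2, 5} : Finset (Fin 8)) := hy
      show B0.part x ≠ B0.part y
      clear hx hy
      revert x y
      decide
    have := hcl.card_le_chromaticNumber
    have h3 : ({0, 2, 5} : Finset (Fin 8)).card = 3 := by decide
    have h4 : (3 : ℕ∞) = ((({0, 2, 5} : Finset (Fin 8)).card : ℕ) : ℕ∞) := by
      rw [h3]
      rfl
    exact le_of_eq_of_le h4 this
  have : B0.graph.chromaticNumber = 3 := le_antisymm hle hge
  unfold chi
  rw [this]
  rfl

theorem sigma_B0 : sigma B0.graph ≤ 2 := by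
  apply Nat.sInf_le
  refine ⟨SimpleGraph.Coloring.mk (fun x => Fin.cast chi_B0.symm (B0.part x))
    (fun {x y} h => fun h2 => h ((Fin.cast_injective _) h2)), Fin.cast chi_B0.symm (0 : Fin 3), ?_⟩
  have : {v : Fin B0.b // (SimpleGraph.Coloring.mk (G := B0.graph)
      (fun x => Fin.cast chi_B0.symm (B0.part x))
      (fun {x y} h => fun h2 => h ((Fin.cast_injective _) h2))) v =
        Fin.cast chi_B0.symm (0 : Fin 3)} ≃
      {v : Fin 8 // B0.part v = (0 : Fin 3)} := by
    refine Equiv.subtypeEquivRight ?_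
    intro v
    constructor
    · intro h
      exact Fin.cast_injective _ h
    · intro h
      show Fin.cast chi_B0.symm (B0.part v) = _
      rw [h]
  rw [Nat.card_congr this, Nat.card_eq_fintype_card]
  decide

theorem chiCr_B0 : chiCr B0.graph ≤ 8 / 3 := by
  have hs : (sigma B0.graph : ℝ) ≤ 2 := by exact_mod_cast sigma_B0
  have hb : (Nat.card (Fin B0.b) : ℝ) = 8 := by
    rw [Nat.card_fin]
    show ((8 : ℕ) : ℝ) = 8
    norm_num
  unfold chiCr
  rw [chi_B0, hb, div_le_iff₀ (by linarith)]
  push_cast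
  linarith

theorem one_le_chiCr (B : Multipartite) (hB : IsBottlegraph H8 B) : 1 ≤ chiCr B.graph := by
  have hbpos : 0 < B.b := by
    obtain ⟨x, _⟩ := B.surj ⟨0, B.kpos⟩
    exact lt_of_le_of_lt (Nat.zero_le _) x.2
  -- `B` has an edge
  have hedge : ∃ x y, B.graph.Adj x y := by
    have hφ : IsIntervalLabelling B 1 (Tuple.sort B.part).symm := by
      intro x y hxy
      by_contra h
      rw [not_lt] at h
      have hm := Tuple.monotone_sort B.part h
      have e : ∀ z, (B.part ∘ (Tuple.sort B.part)) ((Tuple.sort B.part).symm z) = B.part z := by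
        intro z
        show B.part ((Tuple.sort B.part) ((Tuple.sort B.part).symm z)) = B.part z
        rw [Equiv.apply_symm_apply]
      rw [e, e] at hm
      exact absurd hxy (not_lt.2 hm)
    obtain ⟨t, ht, T, hT, hcov⟩ := hB 1 _ hφ
    have hpos : 0 < B.b * t := Nat.mul_pos hbpos ht
    obtain ⟨f, hf, _⟩ := hcov ⟨0, hpos⟩
    have hadj := (hT.1 f hf).2 1 3 (by left; decide)
    exact ⟨_, _, hadj⟩
  obtain ⟨x, y, hxy⟩ := hedge
  have hcol : B.graph.Colorable (chi B.graph) := by
    unfold chi
    have hne : B.graph.chromaticNumber ≠ ⊤ := by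
      rw [SimpleGraph.chromaticNumber_ne_top_iff_exists]
      exact ⟨_, B.graph.colorable_of_fintype⟩
    exact SimpleGraph.colorable_of_chromaticNumber_ne_top hne
  have hchi : 2 ≤ chi B.graph := by
    by_contra h
    have h1 : chi B.graph ≤ 1 := by omega
    obtain ⟨c⟩ := hcol.mono h1
    have := c.valid hxy
    exact this (Subsingleton.elim _ _)
  obtain ⟨c⟩ := hcol
  have hsig : 2 * sigma B.graph ≤ B.b := by
    have i0 : Fin (chi B.graph) := ⟨0, by omega⟩
    have hσ : ∀ i : Fin (chi B.graph), sigma B.graph ≤ Nat.card {v // c v = i} :=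
      fun i => Nat.sInf_le ⟨c, i, rfl⟩
    have h0 := hσ ⟨0, by omega⟩
    have h1 := hσ ⟨1, by omega⟩
    have hinj : Nat.card ({v // c v = (⟨0, by omega⟩ : Fin (chi B.graph))} ⊕
        {v // c v = (⟨1, by omega⟩ : Fin (chi B.graph))}) ≤ Nat.card (Fin B.b) := by
      apply Nat.card_le_card_of_injective (fun z => Sum.elim (fun a => a.1) (fun a => a.1) z)
      rintro (a | a) (b | b) h
      · exact congrArg Sum.inl (Subtype.ext h)
      · exfalso
        have h' : a.1 = b.1 := h
        have h2 := a.2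
        rw [h', b.2] at h2
        have := congrArg Fin.val h2
        simp at this
      · exfalso
        have h' : a.1 = b.1 := h
        have h2 := a.2
        rw [h', b.2] at h2
        have := congrArg Fin.val h2
        simp at this
      · exact congrArg Sum.inr (Subtype.ext h)
    rw [Nat.card_sum, Nat.card_fin] at hinj
    omega
  have hb : (0 : ℝ) < B.b := by exact_mod_cast hbpos
  have hs : (2 : ℝ) * sigma B.graph ≤ B.b := by exact_mod_cast hsig
  have hs0 : (0 : ℝ) ≤ sigma B.graph := Nat.cast_nonneg _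
  have hc : (2 : ℝ) ≤ chi B.graph := by exact_mod_cast hchi
  unfold chiCr
  rw [Nat.card_fin, le_div_iff₀ (by linarith)]
  nlinarith

theorem chiStar_bounds : 1 ≤ chiStar H8 ∧ chiStar H8 ≤ 8 / 3 := by
  have hmem : chiCr B0.graph ∈ {x | ∃ B : Multipartite, IsBottlegraph H8 B ∧ x = chiCr B.graph} :=
    ⟨B0, B0_bottle, rfl⟩
  constructor
  · apply le_csInf ⟨_, hmem⟩
    rintro x ⟨B, hB, rfl⟩
    exact one_le_chiCr B hB
  · refine le_trans (csInf_le ⟨1, ?_⟩ hmem) chiCr_B0
    rintro x ⟨B, hB, rfl⟩
    exact one_le_chiCr B hB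

theorem threshold : 1 - 1 / chiStar H8 ≤ 5 / 8 := by
  obtain ⟨h1, h2⟩ := chiStar_bounds
  have : 3 / 8 ≤ 1 / chiStar H8 := by
    rw [le_div_iff₀ (by linarith)]
    linarith
  linarith

end H721R3.OT
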