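import Mathlib

/-! Definitions for tilings in vertex-ordered graphs. -/

set_option autoImplicit false

namespace H721R3.OT

/-- `f` is a copy of the ordered graph `H` in the ordered graph `G`: it is strictly increasing and
maps edges to edges. (An ordered graph on `n` vertices is a simple graph on `Fin n`, with the
natural order.) -/
def IsCopy {h n : ℕ} (H : SimpleGraph (Fin h)) (G : SimpleGraph (Fin n)) (f : Fin h → Fin n) :
    Prop :=
  StrictMono f ∧ ∀ i j, H.Adj i j → G.Adj (f i) (f j)

/-- an `H`-tiling in `G`: a set of pairwise vertex-disjoint copies of `H` in `G` -/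
def IsTiling {h n : ℕ} (H : SimpleGraph (Fin h)) (G : SimpleGraph (Fin n))
    (T : Set (Fin h → Fin n)) : Prop :=
  (∀ f ∈ T, IsCopy H G f) ∧ ∀ f ∈ T, ∀ g ∈ T, f ≠ g → ∀ i j, f i ≠ g j

/-- the vertex `v` is covered by the tiling `T` -/
def Covered {h n : ℕ} (T : Set (Fin h → Fin n)) (v : Fin n) : Prop := ∃ f ∈ T, ∃ i, f i = v

/-- `G` has a perfect `H`-tiling -/
def HasPerfectTiling {h n : ℕ} (H : SimpleGraph (Fin h)) (G : SimpleGraph (Fin n)) : Prop :=
  ∃ T : Set (Fin h → Fin n), IsTiling H G T ∧ ∀ v, Covered T v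

/-- the chromatic number of a (finite) graph as a natural number -/
noncomputable def chi {V : Type} (F : SimpleGraph V) : ℕ := F.chromaticNumber.toNat

/-- the least size of a colour class over all proper colourings of `F` with `χ(F)` colours -/
noncomputable def sigma {V : Type} (F : SimpleGraph V) : ℕ :=
  sInf {m | ∃ (c : F.Coloring (Fin (chi F))) (i : Fin (chi F)), m = Nat.card {v // c v = i}}

/-- the critical chromatic number `χ_cr(F) = (χ(F) - 1) |F| / (|F| - σ(F))` -/
noncomputable def chiCr {V : Type} (F : SimpleGraph V) : ℝ :=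
  ((chi F : ℝ) - 1) * (Nat.card V : ℝ) / ((Nat.card V : ℝ) - (sigma F : ℝ))

/-- a complete `k`-partite graph (`k ≥ 1`) with vertex set `Fin b`; its parts are the fibres of
`part`, they are non-empty -/
structure Multipartite where
  k : ℕ
  b : ℕ
  kpos : 1 ≤ k
  part : Fin b → Fin k
  surj : Function.Surjective part

/-- the complete `k`-partite graph as a simple graph -/
def Multipartite.graph (B : Multipartite) : SimpleGraph (Fin B.b) where
  Adj x y := B.part x ≠ B.part y
  symm := ⟨fun _ _ h => Ne.symm h⟩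
  loopless := ⟨fun _ h => h rfl⟩

/-- `φ` is an interval labelling of `B` with respect to the permutation `s` of the parts:
the part `s⁻¹ 1` receives the smallest labels, then comes the part `s⁻¹ 2`, and so on -/
def IsIntervalLabelling (B : Multipartite) (s : Equiv.Perm (Fin B.k)) (φ : Fin B.b ≃ Fin B.b) :
    Prop :=
  ∀ x y, s (B.part x) < s (B.part y) → φ x < φ y

/-- the ordered blow-up `(B(t), φ)`: the vertex `x` of `B` is replaced by the independent set
`V_x` of the `t` vertices `t * φ x, …, t * φ x + t - 1`, so `V_x < V_y` whenever `φ x < φ y` -/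
def blowup (B : Multipartite) (t : ℕ) (φ : Fin B.b ≃ Fin B.b) : SimpleGraph (Fin (B.b * t)) where
  Adj u v := B.graph.Adj (φ.symm u.divNat) (φ.symm v.divNat)
  symm := ⟨fun _ _ h => SimpleGraph.Adj.symm h⟩
  loopless := ⟨fun u h => B.graph.loopless.irrefl (φ.symm u.divNat) h⟩

/-- `B` is a bottlegraph of the ordered graph `H` -/
def IsBottlegraph {h : ℕ} (H : SimpleGraph (Fin h)) (B : Multipartite) : Prop :=
  ∀ (s : Equiv.Perm (Fin B.k)) (φ : Fin B.b ≃ Fin B.b), IsIntervalLabelling B s φ →
    ∃ t : ℕ, 1 ≤ t ∧ HasPerfectTiling H (blowup B t φ)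

/-- the parameter `χ*_cr(H)` of an ordered graph -/
noncomputable def chiStar {h : ℕ} (H : SimpleGraph (Fin h)) : ℝ :=
  sInf {x | ∃ B : Multipartite, IsBottlegraph H B ∧ x = chiCr B.graph}

end H721R3.OT
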